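import Pool.Agent.Helper91.SY.Goals

/-!
# Project SY (MP_126465_gt), packet HI
-/

set_option autoImplicit false

open Set Filter Topology
open scoped ContDiff

namespace Pool.Agent.Helper41.SY

open Pool.Agent.Helper91.SY

/-- the complement of a ball is connected in dimension at least two -/
theorem preconn_far {E : Type} [NormedAddCommGroup E] [NormedSpace ℝ E]
    (h : 1 < Module.rank ℝ E) {ρ : ℝ} (hρ : 0 ≤ ρ) : IsPreconnected {x : E | ρ < ‖x‖} := by
  have h0 : IsPreconnected ({(0 : E)}ᶜ) :=
    (isConnected_compl_singleton_of_one_lt_rank h (0 : E)).isPreconnected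
  have hc : ContinuousOn (fun x : E => x + (ρ / ‖x‖) • x) ({(0 : E)}ᶜ) := by
    refine continuousOn_id.add (ContinuousOn.smul ?_ continuousOn_id)
    refine ContinuousOn.div continuousOn_const continuous_norm.continuousOn ?_
    intro x hx
    exact norm_ne_zero_iff.mpr hx
  have h1 := h0.image _ hc
  convert h1 using 1
  ext y
  constructor
  · intro hy
    have hy' : ρ < ‖y‖ := hy
    have hny : 0 < ‖y‖ := lt_of_le_of_lt hρ hy'
    have hd : 0 < ‖y‖ - ρ := by linarith
    refine ⟨((‖y‖ - ρ) / ‖y‖) • y, ?_, ?_⟩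
    · have : y ≠ 0 := norm_pos_iff.mp hny
      simp only [mem_compl_iff, mem_singleton_iff, smul_eq_zero, not_or]
      exact ⟨ne_of_gt (div_pos hd hny), this⟩
    · have hn : ‖((‖y‖ - ρ) / ‖y‖) • y‖ = ‖y‖ - ρ := by
        rw [norm_smul, Real.norm_of_nonneg (div_pos hd hny).le]
        field_simp
      show ((‖y‖ - ρ) / ‖y‖) • y + (ρ / ‖((‖y‖ - ρ) / ‖y‖) • y‖) • ((‖y‖ - ρ) / ‖y‖) • y = y
      rw [hn, smul_smul, ← add_smul]
      have : (‖y‖ - ρ) / ‖y‖ + ρ / (‖y‖ - ρ) * ((‖y‖ - ρ) / ‖y‖) = 1 := by
        field_simp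
        ring
      rw [this, one_smul]
  · rintro ⟨x, hx, rfl⟩
    have hx0 : x ≠ 0 := hx
    have hnx : 0 < ‖x‖ := norm_pos_iff.mpr hx0
    show ρ < ‖x + (ρ / ‖x‖) • x‖
    have : x + (ρ / ‖x‖) • x = (1 + ρ / ‖x‖) • x := by rw [add_smul, one_smul]
    rw [this, norm_smul, Real.norm_of_nonneg (by positivity)]
    have : (1 + ρ / ‖x‖) * ‖x‖ = ‖x‖ + ρ := by field_simp
    linarith

theorem rank_of_plane {E : Type} [NormedAddCommGroup E] [NormedSpace ℝ E] [FiniteDimensional ℝ E]
    {a b : E} {p q : E →L[ℝ] ℝ} (hP : Plane a b p q) : 1 < Module.rank ℝ E := by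
  have hli : LinearIndependent ℝ ![a, b] := by
    rw [LinearIndependent.pair_iff]
    intro s t hst
    have h1 := congrArg p hst
    have h2 := congrArg q hst
    simp only [map_add, map_smul, smul_eq_mul, hP.pa, hP.pb, hP.qa, hP.qb, map_zero] at h1 h2
    constructor
    · linarith
    · linarith
  have h2 := hli.cardinal_le_rank
  simp only [Cardinal.mk_fintype, Fintype.card_fin] at h2
  refine lt_of_lt_of_le ?_ h2
  exact_mod_cast (by norm_num : (1 : ℕ) < 2)

/-- PACKET HI -/
theorem hi_ : StmtHI := by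
  intro E _ _ _ B B0 R a b c p q H hS hFar hP hc hpc hqc ha hb hH hdH hH0
  set ρ : ℝ := max R 0 with hρdef
  have hρ0 : 0 ≤ ρ := le_max_right _ _
  have hρR : R ≤ ρ := le_max_left _ _
  -- the comparison function
  let Q : E → ℝ := fun x => (p x ^ 2 + q x ^ 2) / 2
  have hQd : ∀ x, HasFDerivAt Q (p x • p + q x • q) x := by
    intro x
    have h1 : HasFDerivAt (fun x => p x ^ 2) ((2 * p x) • p) x := by
      have := (p.hasFDerivAt (x := x)).pow 2
      simpa using this
    have h2 : HasFDerivAt (fun x => q x ^ 2) ((2 * q x) • q) x := by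
      have := (q.hasFDerivAt (x := x)).pow 2
      simpa using this
    have h3 := (h1.add h2).const_mul (1 / 2 : ℝ)
    have e1 : (fun x => (1 / 2 : ℝ) * ((fun x => p x ^ 2) + fun x => q x ^ 2) x) = Q := by
      funext y
      simp only [Q, Pi.add_apply]
      ring
    have h4 : HasFDerivAt Q ((1 / 2 : ℝ) • ((2 * p x) • p + (2 * q x) • q)) x := by
      rw [← e1]
      exact h3
    refine h4.congr_fderiv ?_
    ext v
    simp only [ContinuousLinearMap.smul_apply, ContinuousLinearMap.add_apply, smul_eq_mul]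
    ring
  have hQc : Continuous Q := by
    have hp : Continuous (fun x => p x) := p.continuous
    have hq : Continuous (fun x => q x) := q.continuous
    exact ((hp.pow 2).add (hq.pow 2)).div_const 2
  have hHd : Differentiable ℝ H := hH.differentiable (by simp)
  have hder : ∀ x, R ≤ ‖x‖ → fderiv ℝ H x = fderiv ℝ Q x := by
    intro x hx
    rw [(hQd x).fderiv]
    ext v
    rw [hdH x v, hFar x hx]
    simp only [Jr, ContinuousLinearMap.sub_apply, ContinuousLinearMap.smulRight_apply, map_sub,
      map_smul, ContinuousLinearMap.smul_apply, ContinuousLinearMap.add_apply, smul_eq_mul, ha, hb]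
    ring
  have hopen : IsOpen {x : E | ρ < ‖x‖} := isOpen_lt continuous_const continuous_norm
  have hfar1 : ∀ x, ρ < ‖x‖ → H x = Q x := by
    have hcn : 0 < ‖c‖ := norm_pos_iff.mpr hc
    have hmem : ((ρ + 1) / ‖c‖) • c ∈ {x : E | ρ < ‖x‖} := by
      show ρ < ‖((ρ + 1) / ‖c‖) • c‖
      rw [norm_smul, Real.norm_of_nonneg (by positivity)]
      have : (ρ + 1) / ‖c‖ * ‖c‖ = ρ + 1 := by field_simp
      linarith
    have hp0 : p (((ρ + 1) / ‖c‖) • c) = 0 := by rw [map_smul, hpc, smul_zero]
    have hq0 : q (((ρ + 1) / ‖c‖) • c) = 0 := by rw [map_smul, hqc, smul_zero]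
    have key := IsOpen.eqOn_of_fderiv_eq hopen (preconn_far (rank_of_plane hP) hρ0)
      hHd.differentiableOn (fun x _ => (hQd x).differentiableAt.differentiableWithinAt)
      (fun x hx => hder x (le_of_lt (lt_of_le_of_lt hρR hx))) hmem
      (by rw [hH0 _ hp0 hq0]; simp [Q, hp0, hq0])
    intro x hx
    exact key hx
  have hfar2 : ∀ x, R ≤ ‖x‖ → H x = Q x := by
    intro x hx
    rcases lt_or_ge ρ ‖x‖ with h | h
    · exact hfar1 x h
    by_cases hx0 : x = 0
    · subst hx0
      rw [hH0 0 (map_zero p) (map_zero q)]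
      simp [Q]
    have hnx : 0 < ‖x‖ := norm_pos_iff.mpr hx0
    have hρx : ρ ≤ ‖x‖ := by
      rcases le_total R 0 with h' | h'
      · rw [hρdef, max_eq_right h']
        exact hnx.le
      · rw [hρdef, max_eq_left h']
        exact hx
    have hEq : EqOn (fun s : ℝ => H (s • x)) (fun s : ℝ => Q (s • x)) (Ioi 1) := by
      intro s hs
      have hs' : (1 : ℝ) < s := hs
      apply hfar1
      rw [norm_smul, Real.norm_of_nonneg (by linarith)]
      nlinarith
    have hcs : Continuous (fun s : ℝ => s • x) := continuous_id.smul continuous_const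
    have hcl := hEq.closure (hH.continuous.comp hcs) (hQc.comp hcs)
    have h1 : (1 : ℝ) ∈ closure (Ioi (1 : ℝ)) := by
      rw [closure_Ioi]
      exact mem_Ici.mpr le_rfl
    have := hcl h1
    simpa using this
  refine ⟨hfar2, ?_⟩
  -- critical points
  have hcrit : ∀ y, IsLocalMin H y → p y = 0 ∧ q y = 0 := by
    intro y hy
    have h1 : fderiv ℝ H y = 0 := hy.fderiv_eq_zero
    have h2 : Jr a b p q y = 0 := by
      apply hS.nondeg y
      intro v
      have h3 := hdH y v
      rw [h1] at h3
      simp only [ContinuousLinearMap.zero_apply] at h3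
      linarith
    have h4 : p y • b - q y • a = 0 := by
      have : Jr a b p q y = p y • b - q y • a := by
        simp [Jr]
      rw [← this]
      exact h2
    have h5 := congrArg p h4
    have h6 := congrArg q h4
    simp only [map_sub, map_smul, smul_eq_mul, hP.pa, hP.pb, hP.qa, hP.qb, map_zero] at h5 h6
    constructor
    · linarith
    · linarith
  have hnn : ∀ x, 0 ≤ H x := by
    intro x0
    by_contra hneg
    push Not at hneg
    have hQnn : ∀ x, 0 ≤ Q x := fun x => by
      simp only [Q]
      positivity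
    have hin : ‖x0‖ ≤ ρ := by
      by_contra hcon
      push Not at hcon
      have := hfar1 x0 hcon
      have := hQnn x0
      linarith
    obtain ⟨y, hy, hmin⟩ := (isCompact_closedBall (0 : E) ρ).exists_isMinOn
      ⟨x0, by simpa using hin⟩ hH.continuous.continuousOn
    have hyx : H y ≤ H x0 := hmin (by simpa using hin)
    have hglob : ∀ z, H y ≤ H z := by
      intro z
      rcases lt_or_ge ρ ‖z‖ with h | h
      · rw [hfar1 z h]
        have := hQnn z
        linarith
      · exact hmin (by simpa using h)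
    have hloc : IsLocalMin H y := Filter.Eventually.of_forall hglob
    obtain ⟨h1, h2⟩ := hcrit y hloc
    have := hH0 y h1 h2
    linarith
  intro x hx
  rcases (hnn x).lt_or_eq with h | h
  · exact h
  · exfalso
    have hloc : IsLocalMin H x := Filter.Eventually.of_forall (fun z => by
      rw [← h]
      exact hnn z)
    obtain ⟨h1, h2⟩ := hcrit x hloc
    rcases hx with h' | h'
    · exact h' h1
    · exact h' h2

end Pool.Agent.Helper41.SY
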